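import Pool.Agent.Work.MP_6c3bcd_an.Dn.Final

open Pool.Agent.Work.MP_6c3bcd_an

/-- Q1 and Q2 have a positive answer for Banach spaces of density character at most `ℵ₃`: every
projectional generator `(Y, Φ)` on such a space extends to a projectional generator with domain
`D(Y) = hull Y`. -/
theorem Pool.Agent.Results.MP_6c3bcd_an.AlephThreeDensity.result
    {𝕜 : Type*} [RCLike 𝕜] {X : Type*} [NormedAddCommGroup X] [NormedSpace 𝕜 X] [CompleteSpace X]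
    (hX : ∃ s : Set X, Dense s ∧ Cardinal.mk s ≤ Cardinal.aleph 3)
    (Y : Submodule 𝕜 (StrongDual 𝕜 X)) (Φ : Y → Set X) (hΦ : IsProjectionalGenerator Y Φ) :
    ∃ Ψ : hull Y → Set X, IsProjectionalGenerator (hull Y) Ψ ∧
      ∀ (y : StrongDual 𝕜 X) (hy : y ∈ Y) (hy' : y ∈ hull Y), Ψ ⟨y, hy'⟩ = Φ ⟨y, hy⟩ := by
  obtain ⟨Ψ, h1, h2⟩ := Dn.aleph_three_extension hΦ hX
  exact ⟨Ψ, h1, fun y hy _ => h2 ⟨y, hy⟩⟩
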