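import Pool.Agent.Work.MP_6c3bcd_an.Rel3

open Pool.Agent.Work.MP_6c3bcd_an

/-- Q1 and Q2 have a positive answer when the domain `Y` is norm closed and the quotient Banach
space `D(Y)/Y` has density character at most `ℵ₁`, that is, when some set `S ⊆ D(Y)` of cardinality
at most `ℵ₁` has `Y + S` norm dense in `D(Y)`. There is no restriction on the density of `X`. -/
theorem Pool.Agent.Results.MP_6c3bcd_an.ClosedDomain.result
    {𝕜 : Type*} [RCLike 𝕜] {X : Type*} [NormedAddCommGroup X] [NormedSpace 𝕜 X] [CompleteSpace X]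
    (Y : Submodule 𝕜 (StrongDual 𝕜 X)) (hY : IsClosed (Y : Set (StrongDual 𝕜 X)))
    (hS : ∃ S : Set (StrongDual 𝕜 X), Cardinal.mk S ≤ Cardinal.aleph 1 ∧
      S ⊆ (hull Y : Set (StrongDual 𝕜 X)) ∧
      ∀ z ∈ hull Y, ∀ ε > 0, ∃ y ∈ Y, ∃ s ∈ S, ‖z - y - s‖ < ε)
    (Φ : Y → Set X) (hΦ : IsProjectionalGenerator Y Φ) :
    ∃ Ψ : hull Y → Set X, IsProjectionalGenerator (hull Y) Ψ ∧
      ∀ (y : StrongDual 𝕜 X) (hy : y ∈ Y) (hy' : y ∈ hull Y), Ψ ⟨y, hy'⟩ = Φ ⟨y, hy⟩ := by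
  obtain ⟨Ψ, h1, h2⟩ := rel_aleph_one_extension hΦ hY hS
  exact ⟨Ψ, h1, fun y hy _ => h2 ⟨y, hy⟩⟩
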