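import Pool.Agent.Work.MP_6c3bcd_an.Skel.SigmaCase

open Pool.Agent.Work.MP_6c3bcd_an

/-- Q1 and Q2 have a positive answer whenever `D(Y)` is contained in the subspace induced by a
projectional skeleton `(P s)` such that for the vectors `x` of some linearly dense set all the sets
`{P r x : r ≤ s}` are countable, and whenever `D(Y)` is contained in a Σ-subspace, that is, each of
its elements is nonzero at only countably many vectors of some linearly dense set. -/
theorem Pool.Agent.Results.MP_6c3bcd_an.CountableOrbits.result.{u, v, w}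
    {𝕜 : Type u} [RCLike 𝕜] {X : Type v} [NormedAddCommGroup X] [NormedSpace 𝕜 X] [CompleteSpace X]
    (Y : Submodule 𝕜 (StrongDual 𝕜 X)) (Φ : Y → Set X) (hΦ : IsProjectionalGenerator Y Φ)
    (G : Set X) (hG : Dense (Submodule.span 𝕜 G : Set X))
    (h : (∃ (Γ : Type w) (_ : PartialOrder Γ) (P : Γ → X →L[𝕜] X), IsProjectionalSkeleton P ∧
          (∀ z ∈ hull Y, ∃ s, z.comp (P s) = z) ∧
          ∀ x ∈ G, ∀ s, {y | ∃ r, r ≤ s ∧ P r x = y}.Countable) ∨
        ∀ z ∈ hull Y, {x | x ∈ G ∧ z x ≠ 0}.Countable) :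
    ∃ Ψ : hull Y → Set X, IsProjectionalGenerator (hull Y) Ψ ∧
      ∀ (y : StrongDual 𝕜 X) (hy : y ∈ Y) (hy' : y ∈ hull Y), Ψ ⟨y, hy'⟩ = Φ ⟨y, hy⟩ := by
  have key : ∃ Ψ : hull Y → Set X, IsProjectionalGenerator (hull Y) Ψ ∧
      ∀ y : Y, Ψ ⟨y, le_hull Y y.2⟩ = Φ y := by
    rcases h with ⟨Γ, _, P, hP, hD, horbit⟩ | hc
    · exact Skel.orbit_extension hP hΦ (fun z hz => by
        obtain ⟨s, hs⟩ := hD z hz
        exact ⟨s, fun x => by rw [← ContinuousLinearMap.comp_apply, hs]⟩) hG horbit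
    · exact Skel.sigma_extension_of_orbits hΦ G hG hc
  obtain ⟨Ψ, h1, h2⟩ := key
  exact ⟨Ψ, h1, fun y hy _ => h2 ⟨y, hy⟩⟩
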