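import Pool.Agent.Work.MP_6c3bcd_an.Skel.AspDual
import Pool.Agent.Work.MP_6c3bcd_an.CK.Skel

open Pool.Agent.Work.MP_6c3bcd_an

/-- Q1 and Q2 have a positive answer (a) whenever the Banach space `D(Y)` is linearly homeomorphic
to a subspace of some Banach space `Z` with a projectional skeleton, (b) whenever `X` is an Asplund
space, and (c) whenever `X` is a quotient of a space `C(K)`, `K` compact Hausdorff. There is no
restriction on the density of `X`, on `Y` or on the skeletons. -/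
theorem Pool.Agent.Results.MP_6c3bcd_an.SkeletonSuperspace.result.{u, v, w, t}
    {𝕜 : Type u} [RCLike 𝕜] {X : Type v} [NormedAddCommGroup X] [NormedSpace 𝕜 X] [CompleteSpace X]
    (Y : Submodule 𝕜 (StrongDual 𝕜 X)) (Φ : Y → Set X) (hΦ : IsProjectionalGenerator Y Φ)
    (h : (∃ (Z : Type w) (_ : NormedAddCommGroup Z) (_ : NormedSpace 𝕜 Z) (_ : CompleteSpace Z)
          (Γ : Type t) (_ : PartialOrder Γ) (P : Γ → Z →L[𝕜] Z) (T : hull Y →L[𝕜] Z),
          IsProjectionalSkeleton P ∧ ∃ c : ℝ, 0 < c ∧ ∀ z, c * ‖z‖ ≤ ‖T z‖) ∨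
        (∀ E : Submodule 𝕜 X, TopologicalSpace.IsSeparable (E : Set X) →
          TopologicalSpace.SeparableSpace (StrongDual 𝕜 E)) ∨
        ∃ (K : Type w) (_ : TopologicalSpace K) (_ : CompactSpace K) (_ : T2Space K)
          (q : C(K, 𝕜) →L[𝕜] X), Function.Surjective q) :
    ∃ Ψ : hull Y → Set X, IsProjectionalGenerator (hull Y) Ψ ∧
      ∀ (y : StrongDual 𝕜 X) (hy : y ∈ Y) (hy' : y ∈ hull Y), Ψ ⟨y, hy'⟩ = Φ ⟨y, hy⟩ := by
  have key : ∃ Ψ : hull Y → Set X, IsProjectionalGenerator (hull Y) Ψ ∧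
      ∀ y : Y, Ψ ⟨y, le_hull Y y.2⟩ = Φ y := by
    rcases h with ⟨Z, _, _, _, Γ, _, P, T, hP, c, hc, hT⟩ | hX | ⟨K, _, _, _, q, hq⟩
    · exact Skel.skeleton_extension hP hΦ T hc hT
    · exact Skel.asplund_extension_of_skeleton hX hΦ
    · exact CK.ck_quotient_extension q hq hΦ
  obtain ⟨Ψ, h1, h2⟩ := key
  exact ⟨Ψ, h1, fun y hy _ => h2 ⟨y, hy⟩⟩
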